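import Pool.Agent.Y762.FinJ

/-!
Simple critical zeros and distinct zeros of one primitive Dirichlet L-function, uniformly in the
modulus (from the core theorem of `Pool.Agent.Y762`).
-/

open Complex Filter Topology Set MeasureTheory
open H370 (zset mult NN Nd Ns)

set_option autoImplicit false
set_option maxHeartbeats 4000000

namespace Pool.Agent.N217.UM

open H385 H385.FamLS Pool.Agent.Y762
open Pool.Agent.TH243.CYC (LP)

/-- the general form for single characters -/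
theorem single_gen (γ h c ε : ℝ) (hγ0 : 0 < γ) (hγπ : γ < Real.pi) (hh0 : 0 < h) (hh1 : h ≤ 1)
    (hc : 1 / h * Rw γ 0 + 2 * h * (∫ α in (0 : ℝ)..1, α * Rw γ α) < c)
    (hε : 0 < ε) :
    ∃ C : ℝ, 1 ≤ C ∧ ∀ (q : ℕ) [NeZero q] (ψ : DirichletCharacter ℂ q) (T : ℝ),
      ψ.IsPrimitive → C ≤ T → (q * T) ^ h ≤ T →
      2 * (NN (DirichletCharacter.LFunction ψ) T (2 * T) : ℝ) -
        (Ns (DirichletCharacter.LFunction ψ) T (2 * T) : ℝ) ≤
        c * (NN (DirichletCharacter.LFunction ψ) T (2 * T) : ℝ) ∧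
      3 * (NN (DirichletCharacter.LFunction ψ) T (2 * T) : ℝ) -
        2 * (Nd (DirichletCharacter.LFunction ψ) T (2 * T) : ℝ) ≤
        c * (NN (DirichletCharacter.LFunction ψ) T (2 * T) : ℝ) ∧
      (1 - ε) * (T / (2 * Real.pi) * Real.log (q * T)) ≤
        (NN (DirichletCharacter.LFunction ψ) T (2 * T) : ℝ) := by
  classical
  set R0 : ℝ := Rw γ 0 with hR0
  have hR0n : 0 ≤ R0 := Rw_nonneg γ hγ0 hγπ 0
  set J : ℝ := ∫ α in (0 : ℝ)..1, α * Rw γ α with hJ
  have hJn : 0 ≤ J := I1_nonneg γ hγ0 hγπ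
  set e : ℝ := c - (1 / h * R0 + 2 * h * J) with he
  have he0 : 0 < e := by rw [he]; linarith
  set s : ℝ := min (1 / 2) (e * h / (4 * R0 + 1)) with hs
  have hsp : 0 < s := by positivity
  have hs12 : s ≤ 1 / 2 := min_le_left _ _
  have hs3 : 4 * R0 * s ≤ e * h := by
    have h1 : s ≤ e * h / (4 * R0 + 1) := min_le_right _ _
    calc 4 * R0 * s ≤ 4 * R0 * (e * h / (4 * R0 + 1)) :=
          mul_le_mul_of_nonneg_left h1 (by positivity)
      _ = e * h * (4 * R0 / (4 * R0 + 1)) := by ring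
      _ ≤ e * h * 1 := by
        refine mul_le_mul_of_nonneg_left ?_ (by positivity)
        rw [div_le_one (by positivity)]; linarith
      _ = e * h := mul_one _
  set β : ℝ := h * (1 - s) with hβ
  have h1s : 0 < 1 - s := by linarith
  have hβ0 : 0 < β := by positivity
  have hβ1 : β < 1 := by
    calc β < h * 1 := mul_lt_mul_of_pos_left (by linarith) hh0
      _ ≤ 1 := by linarith
  have hconst : R0 / β + 2 * β * J + min (e / 2) ε ≤ c := by
    have e1 : R0 / β ≤ 1 / h * R0 + e / 2 := by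
      rw [div_le_iff₀ hβ0]
      have : (1 / h * R0 + e / 2) * β = R0 * (1 - s) + e / 2 * h * (1 - s) := by
        rw [hβ]; field_simp
      rw [this]
      have h3 : e / 2 * h * (1 / 2) ≤ e / 2 * h * (1 - s) :=
        mul_le_mul_of_nonneg_left (by linarith) (by positivity)
      linarith
    have e2 : 2 * β * J ≤ 2 * h * J := by
      have : β ≤ h := by
        calc β ≤ h * 1 := mul_le_mul_of_nonneg_left (by linarith) hh0.le
          _ = h := mul_one h
      gcongr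
    have e3 : min (e / 2) ε ≤ e / 2 := min_le_left _ _
    have e4 : 1 / h * R0 + 2 * h * J + e = c := by rw [he]; ring
    linarith
  obtain ⟨Ca, hCa, hmsh⟩ := single_msh
  obtain ⟨C0, ζ0, hC0, hζ0, hcore⟩ := core_gen Ca γ β (min (e / 2) ε) hCa hγ0 hγπ hβ0 hβ1
    (by positivity)
  have hminε : min (e / 2) ε ≤ ε := min_le_right _ _
  obtain ⟨C1, hC1, h1⟩ := hmsh h s ζ0 C0 hh0 hh1 hsp hs12 hζ0 hC0
  refine ⟨C1, hC1, ?_⟩
  intro q _ ψ T hprim hT hqT
  obtain ⟨p1, V, p3, p4, p5⟩ := h1 q ψ T hT hqT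
  have hT1 : 1 ≤ T := hC1.trans hT
  have hq1 : (1 : ℝ) ≤ q := by exact_mod_cast (NeZero.one_le : 1 ≤ q)
  have hlog : 0 ≤ Real.log (q * T) := Real.log_nonneg (one_le_mul_of_one_le_of_one_le hq1 hT1)
  have hcond : ∑ χ ∈ ({ψ} : Finset (DirichletCharacter ℂ q)),
      (Real.log q - Real.log χ.conductor) ≤
      ζ0 * Real.log (q * T) * ((({ψ} : Finset (DirichletCharacter ℂ q)).card : ℕ) : ℝ) := by
    have hc : ψ.conductor = q := hprim
    rw [Finset.sum_singleton, hc, sub_self]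
    positivity
  obtain ⟨r1, r2, r3⟩ := hcore q T V {ψ} p1 (by simp) p3 p4 hcond p5
  have hcnt := Pool.Agent.TH243.CYC.counts ψ T (2 * T) (by linarith)
  rw [Finset.sum_singleton, Finset.sum_singleton] at r1 r2
  rw [Finset.sum_singleton, Finset.card_singleton, Nat.cast_one, mul_one] at r3
  rw [hcnt.1, hcnt.2.1, hcnt.2.2]
  have hSN0 : 0 ≤ (NN (LP ψ) T (2 * T) : ℝ) := Nat.cast_nonneg _
  refine ⟨?_, ?_, ?_⟩
  · exact r1.trans (mul_le_mul_of_nonneg_right hconst hSN0)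
  · exact r2.trans (mul_le_mul_of_nonneg_right hconst hSN0)
  · refine le_trans ?_ r3
    refine mul_le_mul_of_nonneg_right (by linarith) (by positivity)

/-- the form with the function `cH` -/
theorem single_cH (h ε : ℝ) (hh0 : 0 < h) (hh1 : h ≤ 1) (hε : 0 < ε) :
    ∃ C : ℝ, 1 ≤ C ∧ ∀ (q : ℕ) [NeZero q] (ψ : DirichletCharacter ℂ q) (T : ℝ),
      ψ.IsPrimitive → C ≤ T → (q * T) ^ h ≤ T →
      2 * (NN (DirichletCharacter.LFunction ψ) T (2 * T) : ℝ) -
        (Ns (DirichletCharacter.LFunction ψ) T (2 * T) : ℝ) ≤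
        (cH h + ε) * (NN (DirichletCharacter.LFunction ψ) T (2 * T) : ℝ) ∧
      3 * (NN (DirichletCharacter.LFunction ψ) T (2 * T) : ℝ) -
        2 * (Nd (DirichletCharacter.LFunction ψ) T (2 * T) : ℝ) ≤
        (cH h + ε) * (NN (DirichletCharacter.LFunction ψ) T (2 * T) : ℝ) ∧
      (1 - ε) * (T / (2 * Real.pi) * Real.log (q * T)) ≤
        (NN (DirichletCharacter.LFunction ψ) T (2 * T) : ℝ) := by
  obtain ⟨hγ0, hγπ⟩ := gam_ok h hh0 hh1
  exact single_gen (Real.sqrt 2 * h) h (cH h + ε) ε hγ0 hγπ hh0 hh1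
    (by rw [Rw_cH h hh0 hh1]; linarith) hε

/-- characters of small modulus -/
theorem single_small : ∃ h C : ℝ, 0 < h ∧ h < 1 ∧ 1 ≤ C ∧
    ∀ (q : ℕ) [NeZero q] (ψ : DirichletCharacter ℂ q) (T : ℝ),
      ψ.IsPrimitive → C ≤ T → (q * T) ^ h ≤ T →
      2 * (NN (DirichletCharacter.LFunction ψ) T (2 * T) : ℝ) -
        (Ns (DirichletCharacter.LFunction ψ) T (2 * T) : ℝ) ≤
        1.3275 * (NN (DirichletCharacter.LFunction ψ) T (2 * T) : ℝ) ∧
      3 * (NN (DirichletCharacter.LFunction ψ) T (2 * T) : ℝ) -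
        2 * (Nd (DirichletCharacter.LFunction ψ) T (2 * T) : ℝ) ≤
        1.3275 * (NN (DirichletCharacter.LFunction ψ) T (2 * T) : ℝ) := by
  have hd2 := Rw_const_d2
  set R0 : ℝ := Rw 1.414 0 with hR0d
  set J : ℝ := ∫ α in (0 : ℝ)..1, α * Rw 1.414 α with hJd
  obtain ⟨a, ha0, ha1, hac⟩ : ∃ a : ℝ, 0 < a ∧ a < 1 ∧
      1 / (1 - a) * R0 + 2 * (1 - a) * J < 1.3275 := by
    have hcont : ContinuousAt (fun a : ℝ => 1 / (1 - a) * R0 + 2 * (1 - a) * J) 0 := by
      have h1 : ContinuousAt (fun a : ℝ => 1 / (1 - a)) 0 := by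
        refine ContinuousAt.div continuousAt_const (by fun_prop) (by norm_num)
      exact (h1.mul continuousAt_const).add (by fun_prop)
    have h0 : (fun a : ℝ => 1 / (1 - a) * R0 + 2 * (1 - a) * J) 0 < 1.3275 := by
      simp only [sub_zero]
      linarith
    have h1 := hcont.eventually (gt_mem_nhds h0)
    have h2 : ∀ᶠ a : ℝ in 𝓝[>] 0, a < 1 := by
      filter_upwards [Ioo_mem_nhdsGT (show (0 : ℝ) < 1 by norm_num)] with a ha
      exact ha.2
    have h3 : ∀ᶠ a : ℝ in 𝓝[>] (0 : ℝ), 0 < a := by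
      filter_upwards [self_mem_nhdsWithin] with a ha
      exact ha
    obtain ⟨a, h4, h5, h6⟩ := ((h1.filter_mono nhdsWithin_le_nhds).and (h2.and h3)).exists
    exact ⟨a, h6, h5, h4⟩
  obtain ⟨C, hC, h⟩ := single_gen 1.414 (1 - a) 1.3275 (1 / 100) (by norm_num)
    (by linarith [Real.pi_gt_three]) (by linarith) (by linarith) hac (by norm_num)
  refine ⟨1 - a, C, by linarith, by linarith, hC, ?_⟩
  intro q _ ψ T h1 h2 h3
  obtain ⟨r1, r2, _⟩ := h q ψ T h1 h2 h3
  exact ⟨r1, r2⟩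

end Pool.Agent.N217.UM
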